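import Pool.Agent.Y123.MZ.Indep

/-!
# Directness of the sum of the weight spaces along sets of weights, and independence over the field of ratios

Let `Z w` be the `ℚ`-span of the multiple zeta values of weight `w` (as in `S16873`; `Z 0 = ℚ`, `Z 1 = 0`) and let `k` be the
subfield of `ℝ` generated by the ratios `x / y` of elements of the same `Z w` (`ratioField`). A set `S` of weights is called
direct if there is no nontrivial relation `∑ z_j = 0`, `z_j` in `Z_j`, `j` in a finite subset of `S`. So Q1 says that the set of
all weights is direct.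

Theorem (unconditional).

1. Dichotomy. If one sum `Z_0 + ... + Z_p` is not direct, then all direct sets of weights are very sparse, uniformly: for every
`N` there is `M` such that no direct set contains more than `2 p` elements of an interval `[n, n + N)` with `n ≥ M`.

2. So Q1 is equivalent to the directness of a single set `S` of weights, as soon as for every `L` there is `N` such that `S`
has at least `L` elements in `[n, n + N)` for infinitely many `n` (that is `liminf (s_(n+L) - s_n) < ∞` for all `L`, if
`S = {s_1 < s_2 < ...}`), for example a set of positive upper density. (By the theorem of Maynard and Tao on bounded gaps this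
applies to the set of primes: Q1 holds if and only if the primes are direct. This remark is not part of the theorem below.)

3. Q1 is partition regular: if the weights are coloured with `r` colours, then Q1 holds if and only if all the colour classes
are direct.

4. For every `L` the following are equivalent: (a) `Z_w, Z_(w+2), ..., Z_(w+2(L-1))` are independent for all `w`; (b) `π ^ 2` is
not a root of a nonzero polynomial over `k` of degree `< L`; (c) there are `L` numbers `f_1, ..., f_L` of the same parity such
that `Z_(W+f_1), ..., Z_(W+f_L)` are independent for infinitely many `W`. For `L = 2`: if `Z_W ∩ Z_(W+d) = 0` for one even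
`d > 0` and infinitely many `W`, then `Z_w ∩ Z_(w+2) = 0` for all `w`.

5. Let `S` be any infinite set of weights (however sparse) and `z_w` a nonzero element of `Z_w` for `w` in `S`. Q1 is
equivalent to the linear independence of the numbers `z_w`, `w` in `S`, over the field `k`, and also to the assertion that they
span a space of infinite dimension over `k`. For example, by the theorem of Ball and Rivoal `ζ(3), ζ(5), ζ(7), ...` span a space
of infinite dimension over `ℚ`; Q1 is equivalent to the same statement with `k` in place of `ℚ`.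

6. If `Z_0 + ... + Z_p` is not direct, then all multiple zeta values together span a space of dimension at most `2 p` over `k`.

Proof. By helper129 (`Pool/Agent/Y129/MZ`, result `FieldOfRatios`) a nontrivial relation of weights at most `p` makes `π ^ 2`
algebraic of degree at most `p` over `k`. If `F` is a set of more than `p` numbers of the same parity, the powers
`π ^ (f - f_0)`, `f` in `F`, are linearly dependent over `k`; multiplication with a common denominator `y` in `Z_V` gives a
relation along `V + F - f_0`, and multiplication with nonzero elements of `Z_m`, `m ≥ 2`, gives one along `W + F` for all large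
`W`, where the bound for `W` only depends on `F`. An interval of length `N` has only finitely many subsets `F`. The even MZVs
are in the field `k(π ^ 2)` and the odd ones in `ζ(3) k(π ^ 2)`.
-/

set_option autoImplicit false

open Polynomial Module

namespace Pool.Agent.Results.MP_4d52ff_nt.DirectnessAlongSets

/-- The `ℚ`-span of the multiple zeta values of weight `j`. -/
noncomputable def Z (j : ℕ) : Submodule ℚ ℝ :=
  Submodule.span ℚ
    {x : ℝ | ∃ t : ℕ, ∃ k : Fin t → ℕ,
      (∀ i, 1 ≤ k i) ∧ (∀ h : 0 < t, 2 ≤ k ⟨0, h⟩) ∧ (∑ i, k i) = j ∧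
      x = ∑' n : {n : Fin t → ℕ // StrictAnti n ∧ ∀ i, 1 ≤ n i},
            ∏ i, (((n.1 i : ℕ) : ℝ) ^ (k i))⁻¹}

/-- The sum `Z_0 + ... + Z_p` is direct. -/
def IsDirect (p : ℕ) : Prop :=
  ∀ z : ℕ → ℝ, (∀ j ≤ p, z j ∈ Z j) → (∑ j ∈ Finset.range (p + 1), z j) = 0 → ∀ j ≤ p, z j = 0

/-- The sum of the `Z_j`, `j` in the finite set `F`, is direct. -/
def IsDirectOn (F : Finset ℕ) : Prop :=
  ∀ z : ℕ → ℝ, (∀ j ∈ F, z j ∈ Z j) → (∑ j ∈ F, z j) = 0 → ∀ j ∈ F, z j = 0

/-- The sum of the `Z_j`, `j` in the set `S`, is direct. -/
def IsDirectAlong (S : Set ℕ) : Prop := ∀ F : Finset ℕ, (F : Set ℕ) ⊆ S → IsDirectOn F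

/-- The field `k` generated by the ratios of elements of equal weight. -/
noncomputable def ratioField : Subfield ℝ :=
  Subfield.closure {r | ∃ w, ∃ x ∈ Z w, ∃ y ∈ Z w, r = x / y}

open Classical in
/-- The number of the elements of `S` in the interval `[n, n + N)`. -/
noncomputable def inWindow (S : Set ℕ) (n N : ℕ) : ℕ := ((Finset.range N).filter fun i => n + i ∈ S).card

/-- The theorem, see the beginning of the file. -/
theorem result :
    -- 1
    (∀ p, ¬ IsDirect p → ∀ N, ∃ M, ∀ S, IsDirectAlong S → ∀ n ≥ M, inWindow S n N ≤ 2 * p) ∧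
    -- 2
    (∀ S : Set ℕ, (∀ L, ∃ N, ∀ M, ∃ n ≥ M, L ≤ inWindow S n N) → ((∀ p, IsDirect p) ↔ IsDirectAlong S)) ∧
    -- 3
    (∀ (r : ℕ) (c : ℕ → Fin r), (∀ p, IsDirect p) ↔ ∀ i, IsDirectAlong (c ⁻¹' {i})) ∧
    -- 4
    (∀ L : ℕ,
      ((∀ w, IsDirectOn ((Finset.range L).image fun i => w + 2 * i)) ↔
        ∀ P : ratioField[X], P ≠ 0 → P.natDegree < L → aeval (Real.pi ^ 2) P ≠ 0) ∧
      ((∀ w, IsDirectOn ((Finset.range L).image fun i => w + 2 * i)) ↔
        ∃ F : Finset ℕ, F.card = L ∧ (∀ f ∈ F, ∀ g ∈ F, f % 2 = g % 2) ∧
          ∀ W₀, ∃ W ≥ W₀, IsDirectOn (F.image (W + ·)))) ∧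
    -- 5
    (∀ S : Set ℕ, S.Infinite → ∀ z : ℕ → ℝ, (∀ w ∈ S, z w ∈ Z w ∧ z w ≠ 0) →
      ((∀ p, IsDirect p) ↔ LinearIndependent ratioField (fun w : S => z w)) ∧
      ((∀ p, IsDirect p) ↔ ¬ FiniteDimensional ratioField (Submodule.span ratioField (z '' S)))) ∧
    -- 6
    ∀ p, ¬ IsDirect p →
      FiniteDimensional ratioField (Submodule.span ratioField {x : ℝ | ∃ w, x ∈ Z w}) ∧
      finrank ratioField (Submodule.span ratioField {x : ℝ | ∃ w, x ∈ Z w}) ≤ 2 * p :=
  ⟨fun _ hp N => Pool.Agent.Y123.MZ.sparse hp N, fun _ hS => Pool.Agent.Y123.MZ.windows hS,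
    Pool.Agent.Y123.MZ.partition, Pool.Agent.Y123.MZ.terms,
    fun _ hS _ hz => Pool.Agent.Y123.MZ.direct_iff hS hz, fun _ hp => Pool.Agent.Y123.MZ.finite_KS hp⟩

end Pool.Agent.Results.MP_4d52ff_nt.DirectnessAlongSets
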