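import Pool.Agent.Y129.MZ.Gap

/-!
# Directness of the sum of the weight spaces and the field of ratios of multiple zeta values

Let `Z w` be the `ℚ`-span of the multiple zeta values of weight `w` (as in `S16873`; `Z 0 = ℚ`,
`Z 1 = 0`), `D w = dim Z w`, and let `k` be the subfield of `ℝ` generated by the ratios `x / y` of
elements `x`, `y` of the same weight (`ratioField`; the elements of `k` are exactly such ratios).

Theorem (unconditional). The following statements are equivalent:

1. Q1: the sum `Z_0 + ... + Z_p` is direct for all `p`.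
2. `π` is transcendental over `k`.
3. Some element of some `Z w` is transcendental over `k`.
4. Every nonzero element of every `Z w`, `w ≥ 1`, is transcendental over `k` (for example all the
   `ζ(n)`).
5. For every `p` there is one `n` with `dim (Z_0 + ... + Z_n) > ∑_{n-p<j≤n} D j`.

If the sum `Z_0 + ... + Z_p` is not direct for some `p`, then moreover

* `π ^ 2` is a root of a nonzero polynomial over `k` of degree at most `p`;
* all multiple zeta values are algebraic over `k`;
* `dim (Z_0 + ... + Z_n) ≤ ∑_{n-p<j≤n} D j` for all `n` (instead of `∑_{0≤j≤n} D j`).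

So Q1 is equivalent to the transcendence of the single number `π` over the field `k`, and there is a
zero-one law: either all the nonzero elements of the `Z w`, `w ≥ 1`, are transcendental over `k`, or all
are algebraic over `k`. (If `k` is algebraic over `ℚ`, Q1 follows by the theorem of Lindemann.) One
relation between different weights `≤ p` would have the effect that all the elements of weight at most
`n - p` are, up to dimension, superfluous in `Z_0 + ... + Z_n`.

Proof. Let `z_0 + ... + z_p = 0` be a nontrivial relation. Put `z_{2i} = a_i π ^ (2i)`,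
`z_{2i+3} = b_i ζ(3) π ^ (2i)` with `a_i, b_i` in `k`, and `ζ(3) ^ 2 = c π ^ 6` with `c` in `k`, `c ≠ 0`.
With the polynomials `A = ∑ a_i X ^ i` and `B = ∑ b_i X ^ i` we have `A(π^2) + ζ(3) B(π^2) = 0`, hence
`π ^ 2` is a root of `P = A ^ 2 - c X ^ 3 B ^ 2`, which is not zero because the degrees of `A ^ 2` and
`X ^ 3 B ^ 2` have different parity. So 2 implies 1. If `z` in `Z w`, `w ≥ 1`, is a root of a nonzero
polynomial over `k`, then multiplication with a common denominator `y` in `Z W` gives a nontrivial
relation between elements of the weights `W + i w`; so 1 implies 4. For `z` in `Z w` the number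
`z ^ 2 / π ^ (2w)` is in `k`; so 3 implies 2. The last assertion: in the graded domain
`R = ⊕ Z_w T ^ w ⊆ ℝ[T]` the relation gives an element `F ≠ 0` of degree `≤ p` with `F(1) = 0`, and the
kernel of `R_{≤n} → Z_0 + ... + Z_n`, `T ↦ 1`, contains `F R_{≤n-p}`.
-/

set_option autoImplicit false

open Polynomial Module

namespace Pool.Agent.Results.MP_4d52ff_nt.FieldOfRatios

/-- The `ℚ`-span of the multiple zeta values of weight `j`. -/
noncomputable def Z (j : ℕ) : Submodule ℚ ℝ :=
  Submodule.span ℚ
    {x : ℝ | ∃ t : ℕ, ∃ k : Fin t → ℕ,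
      (∀ i, 1 ≤ k i) ∧ (∀ h : 0 < t, 2 ≤ k ⟨0, h⟩) ∧ (∑ i, k i) = j ∧
      x = ∑' n : {n : Fin t → ℕ // StrictAnti n ∧ ∀ i, 1 ≤ n i},
            ∏ i, (((n.1 i : ℕ) : ℝ) ^ (k i))⁻¹}

/-- The sum `Z_0 + ... + Z_p` is direct. -/
def IsDirect (p : ℕ) : Prop :=
  ∀ z : ℕ → ℝ, (∀ j ≤ p, z j ∈ Z j) → (∑ j ∈ Finset.range (p + 1), z j) = 0 → ∀ j ≤ p, z j = 0

/-- The field `k` generated by the ratios of elements of equal weight. -/
noncomputable def ratioField : Subfield ℝ :=
  Subfield.closure {r | ∃ w, ∃ x ∈ Z w, ∃ y ∈ Z w, r = x / y}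

/-- The dimension of `Z_0 + ... + Z_n`. -/
noncomputable def dimSum (n : ℕ) : ℕ :=
  finrank ℚ (⨆ j ∈ Finset.range (n + 1), Z j : Submodule ℚ ℝ)

/-- The sum of the dimensions of the `Z_j` with `n - p < j ≤ n`. -/
noncomputable def window (p n : ℕ) : ℕ :=
  ∑ j ∈ (Finset.range (n + 1)).filter (fun j => n < j + p), finrank ℚ (Z j)

/-- Q1 is equivalent to each of: `π` is transcendental over the field of ratios; some element of some
`Z w` is; all nonzero elements of all `Z w`, `w ≥ 1`, are; for every `p` some `n` has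
`dim (Z_0 + ... + Z_n) > ∑_{n-p<j≤n} dim Z_j`. If the sum up to the weight `p` is not direct, then
`π ^ 2` is algebraic of degree at most `p` over the field of ratios, all multiple zeta values are
algebraic over it, and `dim (Z_0 + ... + Z_n) ≤ ∑_{n-p<j≤n} dim Z_j` for all `n`. -/
theorem result :
    ((∀ p, IsDirect p) ↔ Transcendental ratioField Real.pi) ∧
    ((∀ p, IsDirect p) ↔ ∃ w, ∃ z ∈ Z w, Transcendental ratioField z) ∧
    ((∀ p, IsDirect p) ↔ ∀ w ≥ 1, ∀ z ∈ Z w, z ≠ 0 → Transcendental ratioField z) ∧
    ((∀ p, IsDirect p) ↔ ∀ p, ∃ n, window p n < dimSum n) ∧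
    ∀ p, ¬ IsDirect p →
      (∃ P : ratioField[X], P ≠ 0 ∧ P.natDegree ≤ p ∧ aeval (Real.pi ^ 2) P = 0) ∧
      (∀ w, ∀ z ∈ Z w, IsAlgebraic ratioField z) ∧ ∀ n, dimSum n ≤ window p n :=
  Pool.Agent.Y129.MZ.main

end Pool.Agent.Results.MP_4d52ff_nt.FieldOfRatios
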