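import Mathlib
import Pool.Agent.Y777.AM.Dir

/-!
# Directness of the weight grading for short sums of products of multiple zeta values

Let `z_p` (`p = 0, 1, 2, ...`) be sums of together at most `N` products of weight `p` of at most `d`
multiple zeta values of depth at most `r`, whose first argument is at least `n` and whose arguments
are at most `κ n`, with coefficients in a real number field of height at most `C ^ n`. Let `y` be
a combination, with real coefficients at most `C ^ n`, of arbitrarily many multiple zeta values of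
weight at most `κ n` with at least `ε n` arguments `≥ 2`. If `∑ z_p = y`, or only
`|∑ z_p - y| ≤ B ^ (-n)`, then every `z_p` is zero.

The proof uses the theorem of `Pool.Agent.Y760.ZF.Prod` on the stuffle algebra (helper760; subspace
theorem), the weight grading of the stuffle algebra and `Pool.Agent.Y777.AM`.
-/

set_option autoImplicit false

namespace Pool.Agent.Results.MP_4d52ff_nt.ShortSums

/-- `trunc [s_1, ..., s_r] m` is the sum of `∏ n_i ^ (-s_i)` over `m > n_1 > ... > n_r ≥ 1` -/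
noncomputable def trunc : List ℕ → ℕ → ℝ
  | [], _ => 1
  | s :: l, m => ∑ j ∈ Finset.Ico 1 m, trunc l j / (j : ℝ) ^ s

/-- the multiple zeta value `ζ(s_1, ..., s_r)`, `s_1` belongs to the largest variable -/
noncomputable def mzv : List ℕ → ℝ
  | [] => 1
  | s :: l => ∑' m : ℕ, trunc l (m + 1) / ((m + 1 : ℕ) : ℝ) ^ s

/-- the number of arguments `≥ 2` -/
def height (w : List ℕ) : ℕ := w.countP (fun s => decide (2 ≤ s))

/-- the weight of a product of multiple zeta values -/
def weight (M : List (List ℕ)) : ℕ := (M.map List.sum).sum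

/-- the indices of depth at most `r` whose first argument is at least `n` and whose arguments are
positive and at most `κ n` -/
def Admissible (r : ℕ) (κ : ℝ) (n : ℕ) (w : List ℕ) : Prop :=
  w.length ≤ r ∧ (∀ m ∈ w, 1 ≤ m ∧ (m : ℝ) ≤ κ * n) ∧ ∀ k ∈ w.head?, n ≤ k

lemma trunc_eq (w : List ℕ) : ∀ m, trunc w m = Pool.Agent.Y760.ZG.hr w m := by
  induction w with
  | nil => intro m; rw [trunc, Pool.Agent.Y760.ZG.hr_nil]
  | cons s w ih =>
    intro m
    rw [trunc, Pool.Agent.Y760.ZG.hr_cons]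
    exact Finset.sum_congr rfl fun j _ => by rw [ih]

lemma mzv_eq : mzv = Pool.Agent.Y760.ZG.mz := by
  funext w
  cases w with
  | nil => rw [mzv, Pool.Agent.Y760.ZG.mz]
  | cons s w =>
    rw [mzv, Pool.Agent.Y760.ZG.mz]
    exact tsum_congr fun m => by rw [trunc_eq]

/-- Let `β_1, ..., β_l` be real algebraic numbers, linearly independent over `ℚ`, let `N`, `r`, `d`
be numbers, `κ, C` real and `ε > 0`. There are `B > 1` and `n0` such that for all `n ≥ n0`, all sets
`T` of at most `N` products `M` of at most `d` admissible indices, all coefficients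
`c_M = ∑ β_j c_{M j}` with integers `|c_{M j}| ≤ C ^ n`, all sets `H` of indices `h` of weight at
most `κ n`, with first argument `≥ 2` and at least `ε n` arguments `≥ 2`, and all real numbers `b_h`
with `|b_h| ≤ C ^ n`: either for every `p` the part `z_p = ∑ c_M ∏_{u ∈ M} ζ(u)` of weight `p` is
zero, or `|∑_T c_M ∏_{u ∈ M} ζ(u) - ∑_H b_h ζ(h)| > B ^ (-n)`. -/
theorem result {l : ℕ} (β : Fin l → ℝ) (hβ : ∀ j, IsAlgebraic ℚ (β j))
    (hli : LinearIndependent ℚ β) (N r d : ℕ) (κ C ε : ℝ) (hε : 0 < ε) :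
    ∃ B : ℝ, 1 < B ∧ ∃ n0 : ℕ, ∀ n : ℕ, n0 ≤ n → ∀ T : Finset (List (List ℕ)), T.card ≤ N →
      (∀ M ∈ T, M.length ≤ d ∧ ∀ u ∈ M, Admissible r κ n u) →
      ∀ c : List (List ℕ) → Fin l → ℤ, (∀ M ∈ T, ∀ j, |(c M j : ℝ)| ≤ C ^ n) →
      ∀ H : Finset (List ℕ), (∀ h ∈ H, h ≠ [] ∧ (∀ m ∈ h, 1 ≤ m) ∧ (∀ k ∈ h.head?, 2 ≤ k) ∧
        (h.sum : ℝ) ≤ κ * n ∧ ε * n ≤ height h) →
      ∀ b : List ℕ → ℝ, (∀ h ∈ H, |b h| ≤ C ^ n) →
      (∀ p : ℕ, ∑ M ∈ T with weight M = p, (∑ j, β j * c M j) * (M.map mzv).prod = 0) ∨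
      (B ^ n)⁻¹ < |∑ M ∈ T, (∑ j, β j * c M j) * (M.map mzv).prod - ∑ h ∈ H, b h * mzv h| := by
  rw [mzv_eq]
  exact Pool.Agent.Y777.AM.dirM β hβ hli N r d κ C ε hε

end Pool.Agent.Results.MP_4d52ff_nt.ShortSums
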